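import Pool.Agent.Helper14.LS.Var
import Pool.Agent.WO94.Orders

/-!
# Chebyshev's inequality with the large sieve
-/

set_option autoImplicit false

namespace Pool.Agent.Helper14.LS

open Finset

open scoped Classical in
theorem cheb {A : Type} [Fintype A] [DecidableEq A] (P : Finset ℕ) (hP : ∀ p ∈ P, p.Prime)
    (Q : ℕ) (hQ : ∀ p ∈ P, p ≤ Q)
    (G : (p : ℕ) → Set (A → ZMod p)) (δ : ℕ → ℝ) (hδ0 : ∀ p ∈ P, 0 ≤ δ p)
    (hδ : ∀ p ∈ P, δ p * (p : ℝ) ^ Fintype.card A ≤ (Nat.card (G p) : ℝ))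
    (ε : ℝ) (hε : 0 ≤ ε) (N : ℕ) :
    ((((WO94.box A N).filter fun c =>
        (WO94.nGood P G c : ℝ) ≤ (1 - ε) * ∑ p ∈ P, δ p).card : ℕ) : ℝ) *
        (ε * ∑ p ∈ P, δ p) ^ 2
      ≤ (4 * N + 3 * (Q : ℝ) ^ 2) ^ Fintype.card A * ∑ p ∈ P, (1 - δ p) := by
  rcases Finset.eq_empty_or_nonempty P with h0 | ⟨p0, hp0⟩
  · subst h0
    simp
  have hQ1 : 1 ≤ Q := (hP p0 hp0).one_lt.le.trans (hQ p0 hp0)
  have hne : ∀ p : P, NeZero p.1 := fun p => ⟨(hP p.1 p.2).ne_zero⟩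
  have hpos : ∀ p : P, (0 : ℝ) < (p.1 : ℝ) ^ Fintype.card A := fun p =>
    pow_pos (by exact_mod_cast (hP p.1 p.2).pos) _
  set D := ∑ p ∈ P, δ p with hD
  have hD0 : 0 ≤ D := Finset.sum_nonneg hδ0
  let μ : P → ℝ := fun p => (Nat.card (G p.1) : ℝ) / (p.1 : ℝ) ^ Fintype.card A
  have hcard : ∀ p : P, (Nat.card (G p.1) : ℝ) = ∑ x : A → ZMod p.1, if x ∈ G p.1 then 1 else 0 := by
    intro p
    rw [Nat.card_eq_fintype_card, Finset.sum_boole, ← Set.toFinset_card]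
    congr 2
    ext x
    simp
  have hall : ∀ p : P, (Fintype.card (A → ZMod p.1) : ℝ) = (p.1 : ℝ) ^ Fintype.card A := by
    intro p
    rw [Fintype.card_fun, ZMod.card]
    push_cast
    rfl
  have hμ1 : ∀ p : P, μ p ≤ 1 := by
    intro p
    simp only [μ]
    rw [div_le_one (hpos p), ← hall p]
    have : Nat.card (G p.1) ≤ Fintype.card (A → ZMod p.1) := by
      rw [← Nat.card_eq_fintype_card]
      exact Nat.card_le_card_of_injective _ Subtype.val_injective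
    exact_mod_cast this
  have hμδ : ∀ p : P, δ p.1 ≤ μ p := by
    intro p
    simp only [μ]
    rw [le_div_iff₀ (hpos p)]
    exact hδ p.1 p.2
  have hμ0 : ∀ p : P, 0 ≤ μ p := fun p => (hδ0 p.1 p.2).trans (hμδ p)
  let Z : (p : P) → (A → ZMod p.1) → ℝ := fun p x => (if x ∈ G p.1 then 1 else 0) - μ p
  have hZ0 : ∀ p, ∑ x, Z p x = 0 := by
    intro p
    simp only [Z]
    rw [Finset.sum_sub_distrib, ← hcard, Finset.sum_const, Finset.card_univ, nsmul_eq_mul, hall]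
    simp only [μ]
    rw [mul_div_cancel₀ _ (hpos p).ne', sub_self]
  have hZ2 : ∀ p, ((p.1 : ℝ) ^ Fintype.card A)⁻¹ * ∑ x, (Z p x) ^ 2 ≤ 1 - δ p.1 := by
    intro p
    have h1 : ∑ x, (Z p x) ^ 2 = (p.1 : ℝ) ^ Fintype.card A * (μ p * (1 - μ p)) := by
      have h2 : ∀ x, (Z p x) ^ 2 = (1 - 2 * μ p) * (if x ∈ G p.1 then 1 else 0) + μ p ^ 2 := by
        intro x
        simp only [Z]
        split_ifs <;> ring
      simp_rw [h2]
      rw [Finset.sum_add_distrib, ← Finset.mul_sum, ← hcard, Finset.sum_const, Finset.card_univ,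
        nsmul_eq_mul, hall]
      have h3 : (Nat.card (G p.1) : ℝ) = (p.1 : ℝ) ^ Fintype.card A * μ p := by
        simp only [μ]
        rw [mul_div_cancel₀ _ (hpos p).ne']
      rw [h3]
      ring
    rw [h1, ← mul_assoc, inv_mul_cancel₀ (hpos p).ne', one_mul]
    have := hμ1 p
    have := hμ0 p
    have := hμδ p
    nlinarith
  have hvar := variance P hP Q hQ hQ1 N Z hZ0
  have hsumZ : ∀ c : A → ℤ, ∑ p : P, Z p (fun i => ((c i : ℤ) : ZMod p.1)) =
      (WO94.nGood P G c : ℝ) - ∑ p : P, μ p := by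
    intro c
    simp only [Z]
    rw [Finset.sum_sub_distrib]
    congr 1
    have h1 : ∑ p : P, (if (fun i => ((c i : ℤ) : ZMod p.1)) ∈ G p.1 then (1 : ℝ) else 0) =
        ∑ p ∈ P, (if (fun i => ((c i : ℤ) : ZMod p)) ∈ G p then (1 : ℝ) else 0) :=
      Finset.sum_coe_sort P (fun p => if (fun i => ((c i : ℤ) : ZMod p)) ∈ G p then (1 : ℝ) else 0)
    rw [h1, Finset.sum_boole]
    rfl
  have hDμ : D ≤ ∑ p : P, μ p := by
    rw [hD, ← Finset.sum_coe_sort P δ]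
    exact Finset.sum_le_sum fun p _ => hμδ p
  have hlow : ((((WO94.box A N).filter fun c =>
        (WO94.nGood P G c : ℝ) ≤ (1 - ε) * D).card : ℕ) : ℝ) * (ε * D) ^ 2 ≤
      ∑ c ∈ Fintype.piFinset (fun _ : A => Icc (-(N : ℤ)) N),
        (∑ p : P, Z p (fun i => ((c i : ℤ) : ZMod p.1))) ^ 2 := by
    rw [← nsmul_eq_mul, ← Finset.sum_const]
    refine le_trans (Finset.sum_le_sum ?_) (Finset.sum_le_sum_of_subset_of_nonneg
      (Finset.filter_subset _ _) fun _ _ _ => sq_nonneg _)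
    intro c hc
    rw [Finset.mem_filter] at hc
    rw [hsumZ, ← sq_abs ((WO94.nGood P G c : ℝ) - ∑ p : P, μ p)]
    refine pow_le_pow_left₀ (by positivity) ?_ 2
    rw [abs_of_nonpos (by nlinarith [hc.2])]
    nlinarith [hc.2]
  refine hlow.trans (hvar.trans ?_)
  refine mul_le_mul_of_nonneg_left ?_ (by positivity)
  rw [← Finset.sum_coe_sort P (fun p => 1 - δ p)]
  exact Finset.sum_le_sum fun p _ => hZ2 p

end Pool.Agent.Helper14.LS
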