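import Mathlib

/-!
# A large sieve inequality in several variables
-/

set_option autoImplicit false

namespace Pool.Agent.Helper14.LS

open Finset

/-- `exp (2 pi i t)` -/
noncomputable def ee (t : ℝ) : ℂ := Complex.exp (Complex.I * ((2 * Real.pi * t : ℝ) : ℂ))

theorem ee_add (s t : ℝ) : ee (s + t) = ee s * ee t := by
  unfold ee
  rw [← Complex.exp_add]
  congr 1
  push_cast
  ring

theorem ee_zero : ee 0 = 1 := by
  unfold ee
  simp

theorem ee_int (n : ℤ) : ee n = 1 := by
  unfold ee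
  have h : (Complex.I * ((2 * Real.pi * (n : ℝ) : ℝ) : ℂ)) = n * (2 * Real.pi * Complex.I) := by
    push_cast
    ring
  rw [h]
  exact Complex.exp_int_mul_two_pi_mul_I n

theorem ee_conj (t : ℝ) : (starRingEnd ℂ) (ee t) = ee (-t) := by
  unfold ee
  rw [← Complex.exp_conj]
  congr 1
  rw [map_mul, Complex.conj_I, Complex.conj_ofReal]
  push_cast
  ring

theorem norm_ee (t : ℝ) : ‖ee t‖ = 1 := by
  unfold ee
  rw [mul_comm, Complex.norm_exp_ofReal_mul_I]

theorem ee_sum {A : Type*} (s : Finset A) (f : A → ℝ) : ee (∑ i ∈ s, f i) = ∏ i ∈ s, ee (f i) := by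
  classical
  induction s using Finset.induction_on with
  | empty => simp [ee_zero]
  | insert a s ha ih => rw [Finset.sum_insert ha, Finset.prod_insert ha, ee_add, ih]

theorem ee_round (t : ℝ) : ee t = ee (t - round t) := by
  have h : t = (t - round t) + (round t : ℤ) := by ring
  conv_lhs => rw [h]
  rw [ee_add, ee_int, mul_one]

theorem norm_ee_sub_one (t : ℝ) : 4 * |t - round t| ≤ ‖ee t - 1‖ := by
  rw [ee_round t]
  have hu : |t - round t| ≤ 1 / 2 := abs_sub_round t
  set u := t - round t with hu'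
  unfold ee
  rw [Complex.norm_exp_I_mul_ofReal_sub_one]
  rw [show 2 * Real.pi * u / 2 = Real.pi * u by ring]
  rw [Real.norm_eq_abs, abs_mul, abs_of_pos (show (0 : ℝ) < 2 by norm_num)]
  have h1 : |Real.sin (Real.pi * u)| = Real.sin (Real.pi * |u|) := by
    rcases le_total 0 u with h | h
    · rw [abs_of_nonneg h, abs_of_nonneg]
      refine Real.sin_nonneg_of_nonneg_of_le_pi (by positivity) ?_
      rw [abs_of_nonneg h] at hu
      nlinarith [Real.pi_pos]
    · rw [abs_of_nonpos h]
      rw [show Real.pi * u = -(Real.pi * -u) by ring, Real.sin_neg, abs_neg, abs_of_nonneg]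
      rw [abs_of_nonpos h] at hu
      refine Real.sin_nonneg_of_nonneg_of_le_pi ?_ ?_
      · have : 0 ≤ -u := by linarith
        positivity
      · nlinarith [Real.pi_pos]
  rw [h1]
  have h2 := Real.mul_le_sin (x := Real.pi * |u|) (by positivity) (by nlinarith [Real.pi_pos])
  have h3 : 2 / Real.pi * (Real.pi * |u|) = 2 * |u| := by
    field_simp
  rw [h3] at h2
  linarith

/-- Geometric sums. -/
noncomputable def geo (L : ℕ) (t : ℝ) : ℂ := ∑ x ∈ range L, ee (x * t)

theorem geo_le (L : ℕ) (t : ℝ) : ‖geo L t‖ ≤ L := by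
  unfold geo
  refine (norm_sum_le _ _).trans ?_
  simp [norm_ee]

theorem geo_mul (L : ℕ) (t : ℝ) : ‖geo L t‖ * (2 * |t - round t|) ≤ 1 := by
  have h1 : geo L t * (ee t - 1) = ee (L * t) - 1 := by
    unfold geo
    induction L with
    | zero => simp [ee_zero]
    | succ L ih =>
      rw [Finset.sum_range_succ, add_mul, ih]
      have : ee ((L + 1 : ℕ) * t) = ee (L * t) * ee t := by
        rw [← ee_add]
        congr 1
        push_cast
        ring
      rw [this]
      ring
  have h2 : ‖geo L t‖ * ‖ee t - 1‖ ≤ 2 := by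
    rw [← norm_mul, h1]
    refine (norm_sub_le _ _).trans ?_
    rw [norm_ee, norm_one]
    norm_num
  have h3 := mul_le_mul_of_nonneg_left (norm_ee_sub_one t) (norm_nonneg (geo L t))
  nlinarith [norm_nonneg (geo L t)]

theorem geo_conj (L : ℕ) (t : ℝ) : (starRingEnd ℂ) (geo L t) = geo L (-t) := by
  unfold geo
  rw [map_sum]
  refine Finset.sum_congr rfl fun x _ => ?_
  rw [ee_conj]
  congr 1
  ring

theorem geo_neg (L : ℕ) (t : ℝ) : ‖geo L (-t)‖ = ‖geo L t‖ := by
  rw [← geo_conj, RCLike.norm_conj]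

/-- The bound for a cell. -/
noncomputable def cellG (L K : ℕ) (δ : ℝ) (k : ℕ) : ℝ :=
  if k = 0 then (L : ℝ) * K else 1 / (4 * δ ^ 2 * (k : ℝ) ^ 2)

theorem cellG_nonneg (L K : ℕ) (δ : ℝ) (k : ℕ) : 0 ≤ cellG L K δ k := by
  unfold cellG
  split_ifs
  · positivity
  · positivity

theorem geo_cell (L K : ℕ) {δ : ℝ} (hδ : 0 < δ) (t : ℝ) :
    ‖geo L t‖ * ‖geo K t‖ ≤ cellG L K δ ⌊|t - round t| / δ⌋₊ := by
  set u := |t - round t| with hu
  have hu0 : 0 ≤ u := abs_nonneg _
  unfold cellG
  split_ifs with h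
  · exact mul_le_mul (geo_le L t) (geo_le K t) (norm_nonneg _) (by positivity)
  · set k := ⌊u / δ⌋₊ with hk
    have hk1 : 1 ≤ k := by omega
    have hk' : (1 : ℝ) ≤ k := by exact_mod_cast hk1
    have h1 : (k : ℝ) * δ ≤ u := by
      have := Nat.floor_le (show 0 ≤ u / δ by positivity)
      rw [← hk] at this
      rwa [le_div_iff₀ hδ] at this
    have h2 := geo_mul L t
    have h3 := geo_mul K t
    rw [← hu] at h2 h3
    have hkδ : 0 < (k : ℝ) * δ := by positivity
    have h4 : ‖geo L t‖ ≤ 1 / (2 * (k * δ)) := by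
      rw [le_div_iff₀ (by positivity)]
      refine le_trans ?_ h2
      exact mul_le_mul_of_nonneg_left (by linarith) (norm_nonneg _)
    have h5 : ‖geo K t‖ ≤ 1 / (2 * (k * δ)) := by
      rw [le_div_iff₀ (by positivity)]
      refine le_trans ?_ h3
      exact mul_le_mul_of_nonneg_left (by linarith) (norm_nonneg _)
    calc ‖geo L t‖ * ‖geo K t‖ ≤ 1 / (2 * (k * δ)) * (1 / (2 * (k * δ))) :=
          mul_le_mul h4 h5 (norm_nonneg _) (by positivity)
      _ = _ := by
          field_simp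
          ring

theorem sum_inv_sq (R : ℕ) : ∑ k ∈ range R, 1 / ((k : ℝ) + 1) ^ 2 ≤ 2 := by
  have h : ∀ R : ℕ, ∑ k ∈ range (R + 1), 1 / ((k : ℝ) + 1) ^ 2 ≤ 2 - 1 / ((R : ℝ) + 1) := by
    intro R
    induction R with
    | zero => norm_num
    | succ R ih =>
      rw [Finset.sum_range_succ]
      have h1 : 1 / (((R + 1 : ℕ) : ℝ) + 1) ^ 2 ≤
          1 / ((R : ℝ) + 1) - 1 / (((R + 1 : ℕ) : ℝ) + 1) := by
        push_cast
        rw [div_sub_div _ _ (by positivity) (by positivity), div_le_div_iff₀ (by positivity)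
          (by positivity)]
        have : (0 : ℝ) ≤ R := by positivity
        nlinarith [sq_nonneg (R : ℝ)]
      linarith
  rcases Nat.eq_zero_or_pos R with h0 | h0
  · subst h0
    simp
  · obtain ⟨R', rfl⟩ : ∃ R', R = R' + 1 := ⟨R - 1, by omega⟩
    refine (h R').trans ?_
    have : (0 : ℝ) ≤ 1 / ((R' : ℝ) + 1) := by positivity
    linarith

theorem sum_cellG (L K : ℕ) {δ : ℝ} (hδ : 0 < δ) (R : ℕ) :
    ∑ x ∈ (univ : Finset Bool) ×ˢ range R, cellG L K δ x.2 ≤ 2 * (L * K) + 1 / δ ^ 2 := by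
  rw [Finset.sum_product]
  simp only [Finset.sum_const, Finset.card_univ, Fintype.card_bool, nsmul_eq_mul]
  have h : ∑ k ∈ range R, cellG L K δ k ≤ (L : ℝ) * K + 1 / (2 * δ ^ 2) := by
    rcases Nat.eq_zero_or_pos R with h0 | h0
    · subst h0
      simp only [Finset.range_zero, Finset.sum_empty]
      positivity
    · obtain ⟨R', rfl⟩ : ∃ R', R = R' + 1 := ⟨R - 1, by omega⟩
      rw [Finset.sum_range_succ']
      have h1 : cellG L K δ 0 = (L : ℝ) * K := by
        unfold cellG
        rw [if_pos rfl]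
      have h2 : ∑ k ∈ range R', cellG L K δ (k + 1) =
          1 / (4 * δ ^ 2) * ∑ k ∈ range R', 1 / ((k : ℝ) + 1) ^ 2 := by
        rw [Finset.mul_sum]
        refine Finset.sum_congr rfl fun k _ => ?_
        unfold cellG
        rw [if_neg (by omega)]
        push_cast
        field_simp
      rw [h1, h2]
      have h3 := mul_le_mul_of_nonneg_left (sum_inv_sq R') (show 0 ≤ 1 / (4 * δ ^ 2) by positivity)
      have h4 : 1 / (4 * δ ^ 2) * 2 = 1 / (2 * δ ^ 2) := by
        field_simp
        norm_num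
      linarith
  have h4 : 2 * ((L : ℝ) * K + 1 / (2 * δ ^ 2)) = 2 * (L * K) + 1 / δ ^ 2 := by
    field_simp
  push_cast
  linarith

section

variable {A : Type} [Fintype A] [DecidableEq A] {ι : Type} [DecidableEq ι]

/-- The cell of a frequency. -/
noncomputable def cell (δ : ℝ) (t : A → ℝ) (i : A) : Bool × ℕ :=
  (decide (t i - round (t i) < 0), ⌊|t i - round (t i)| / δ⌋₊)

omit [DecidableEq A] in
theorem row_sum (L K : ℕ) {δ : ℝ} (hδ : 0 < δ) (J : Finset ι) (θ : ι → A → ℝ)
    (hsep : ∀ j ∈ J, ∀ j' ∈ J, j ≠ j' → ∃ i, ∀ z : ℤ, δ ≤ |θ j i - θ j' i - z|) (j : ι) :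
    ∑ j' ∈ J, ∏ i, (‖geo L (θ j i - θ j' i)‖ * ‖geo K (θ j i - θ j' i)‖) ≤
      (2 * (L * K) + 1 / δ ^ 2) ^ Fintype.card A := by
  classical
  set R : ℕ := ⌊1 / 2 / δ⌋₊ + 1 with hR
  let f : ι → A → Bool × ℕ := fun j' => cell δ (fun i => θ j i - θ j' i)
  have hinj : Set.InjOn f J := by
    intro a ha b hb hab
    by_contra hne
    obtain ⟨i, hi⟩ := hsep a ha b hb hne
    have h1 := congrFun hab i
    simp only [f, cell, Prod.mk.injEq] at h1
    obtain ⟨h2, h3⟩ := h1
    set ua := (θ j i - θ a i) - round (θ j i - θ a i) with hua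
    set ub := (θ j i - θ b i) - round (θ j i - θ b i) with hub
    have h4 : |ub - ua| < δ := by
      have e1 := Nat.floor_le (show 0 ≤ |ua| / δ by positivity)
      have e2 := Nat.lt_floor_add_one (|ua| / δ)
      have e3 := Nat.floor_le (show 0 ≤ |ub| / δ by positivity)
      have e4 := Nat.lt_floor_add_one (|ub| / δ)
      rw [← h3] at e3 e4
      have e5 : |(|ub| - |ua|)| < δ := by
        have e6 : |(|ub| / δ) - (|ua| / δ)| < 1 := by
          rw [abs_lt]
          constructor <;> linarith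
        rw [← sub_div, abs_div, abs_of_pos hδ, div_lt_one hδ] at e6
        exact e6
      by_cases hs : ua < 0
      · have hs' : ub < 0 := by
          have : decide (ub < 0) = true := by rw [← h2]; exact decide_eq_true hs
          exact of_decide_eq_true this
        rw [abs_of_neg hs, abs_of_neg hs'] at e5
        rw [show ub - ua = -(-ub - -ua) by ring, abs_neg]
        exact e5
      · have hs' : ¬ ub < 0 := by
          intro hc
          have : decide (ua < 0) = true := by rw [h2]; exact decide_eq_true hc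
          exact hs (of_decide_eq_true this)
        rw [abs_of_nonneg (not_lt.1 hs), abs_of_nonneg (not_lt.1 hs')] at e5
        exact e5
    have h5 := hi (round (θ j i - θ b i) - round (θ j i - θ a i))
    have h6 : θ a i - θ b i - ((round (θ j i - θ b i) - round (θ j i - θ a i) : ℤ) : ℝ) =
        ub - ua := by
      rw [hua, hub]
      push_cast
      ring
    rw [h6] at h5
    linarith
  have hmaps : ∀ a ∈ J, f a ∈ Fintype.piFinset (fun _ : A => (univ : Finset Bool) ×ˢ range R) := by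
    intro a _
    rw [Fintype.mem_piFinset]
    intro i
    rw [Finset.mem_product]
    refine ⟨Finset.mem_univ _, ?_⟩
    rw [Finset.mem_range, hR]
    simp only [f, cell]
    have h1 : |θ j i - θ a i - round (θ j i - θ a i)| / δ ≤ 1 / 2 / δ :=
      div_le_div_of_nonneg_right (abs_sub_round _) hδ.le
    have := Nat.floor_le_floor h1
    omega
  calc ∑ j' ∈ J, ∏ i, (‖geo L (θ j i - θ j' i)‖ * ‖geo K (θ j i - θ j' i)‖)
      ≤ ∑ j' ∈ J, ∏ i, cellG L K δ (f j' i).2 := by
        refine Finset.sum_le_sum fun j' _ => ?_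
        refine Finset.prod_le_prod (fun i _ => by positivity) fun i _ => ?_
        exact geo_cell L K hδ _
    _ = ∑ k ∈ J.image f, ∏ i, cellG L K δ (k i).2 := by
        rw [Finset.sum_image hinj]
    _ ≤ ∑ k ∈ Fintype.piFinset (fun _ : A => (univ : Finset Bool) ×ˢ range R),
          ∏ i, cellG L K δ (k i).2 := by
        refine Finset.sum_le_sum_of_subset_of_nonneg ?_ ?_
        · intro k hk
          rw [Finset.mem_image] at hk
          obtain ⟨a, ha, rfl⟩ := hk
          exact hmaps a ha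
        · intro k _ _
          exact Finset.prod_nonneg fun i _ => cellG_nonneg _ _ _ _
    _ = ∏ _i : A, ∑ x ∈ (univ : Finset Bool) ×ˢ range R, cellG L K δ x.2 := by
        rw [Finset.prod_univ_sum]
    _ = (∑ x ∈ (univ : Finset Bool) ×ˢ range R, cellG L K δ x.2) ^ Fintype.card A := by
        rw [Finset.prod_const, Finset.card_univ]
    _ ≤ _ := pow_le_pow_left₀ (Finset.sum_nonneg fun x _ => cellG_nonneg _ _ _ _)
        (sum_cellG L K hδ R) _

/-- The exponential sum. -/
noncomputable def S (J : Finset ι) (θ : ι → A → ℝ) (a : ι → ℂ) (c : A → ℤ) : ℂ :=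
  ∑ j ∈ J, a j * ee (∑ i, θ j i * c i)

omit [DecidableEq A] [DecidableEq ι] in
theorem normSq_expand (J : Finset ι) (θ : ι → A → ℝ) (a : ι → ℂ) (c : A → ℤ) :
    ((‖S J θ a c‖ ^ 2 : ℝ) : ℂ) = ∑ j ∈ J, ∑ j' ∈ J, a j * (starRingEnd ℂ) (a j') *
      ∏ i, ee ((θ j i - θ j' i) * c i) := by
  rw [Complex.ofReal_pow, ← Complex.mul_conj']
  unfold S
  rw [map_sum, Finset.sum_mul_sum]
  refine Finset.sum_congr rfl fun j _ => Finset.sum_congr rfl fun j' _ => ?_
  rw [map_mul, ee_conj, ← ee_sum]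
  have : ee (∑ i, (θ j i - θ j' i) * c i) = ee (∑ i, θ j i * c i) * ee (-∑ i, θ j' i * c i) := by
    rw [← ee_add]
    congr 1
    rw [← sub_eq_add_neg, ← Finset.sum_sub_distrib]
    refine Finset.sum_congr rfl fun i _ => ?_
    ring
  rw [this]
  ring

omit [DecidableEq ι] in
/-- The double sum over a cube and a smaller cube. -/
theorem double_sum (L K N : ℕ) (J : Finset ι) (θ : ι → A → ℝ) (a : ι → ℂ) :
    ∑ y ∈ Fintype.piFinset (fun _ : A => range K), ∑ x ∈ Fintype.piFinset (fun _ : A => range L),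
      ‖S J θ a (fun i => (x i : ℤ) - y i - N)‖ ^ 2 ≤
    ∑ j ∈ J, ∑ j' ∈ J, ‖a j‖ * ‖a j'‖ *
      ∏ i, (‖geo L (θ j i - θ j' i)‖ * ‖geo K (θ j i - θ j' i)‖) := by
  have hexp : ((∑ y ∈ Fintype.piFinset (fun _ : A => range K),
      ∑ x ∈ Fintype.piFinset (fun _ : A => range L),
      ‖S J θ a (fun i => (x i : ℤ) - y i - N)‖ ^ 2 : ℝ) : ℂ) =
      ∑ j ∈ J, ∑ j' ∈ J, a j * (starRingEnd ℂ) (a j') *
        ∏ i, (ee (-((θ j i - θ j' i) * N)) *
          (geo L (θ j i - θ j' i) * geo K (-(θ j i - θ j' i)))) := by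
    rw [Complex.ofReal_sum]
    simp_rw [Complex.ofReal_sum, normSq_expand]
    have h1 : ∀ y : A → ℕ, ∑ x ∈ Fintype.piFinset (fun _ : A => range L),
        ∑ j ∈ J, ∑ j' ∈ J, a j * (starRingEnd ℂ) (a j') *
          ∏ i, ee ((θ j i - θ j' i) * (((x i : ℤ) - y i - N : ℤ) : ℝ)) =
        ∑ j ∈ J, ∑ j' ∈ J, a j * (starRingEnd ℂ) (a j') *
          ∏ i, (ee (-((θ j i - θ j' i) * N)) * (geo L (θ j i - θ j' i) *
            ee (y i * (-(θ j i - θ j' i))))) := by
      intro y
      rw [Finset.sum_comm]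
      refine Finset.sum_congr rfl fun j _ => ?_
      rw [Finset.sum_comm]
      refine Finset.sum_congr rfl fun j' _ => ?_
      rw [← Finset.mul_sum]
      congr 1
      have h2 : ∀ x : A → ℕ, ∏ i, ee ((θ j i - θ j' i) * (((x i : ℤ) - y i - N : ℤ) : ℝ)) =
          ∏ i, (ee (-((θ j i - θ j' i) * N)) * (ee (x i * (θ j i - θ j' i)) *
            ee (y i * (-(θ j i - θ j' i))))) := by
        intro x
        refine Finset.prod_congr rfl fun i _ => ?_
        rw [← ee_add, ← ee_add]
        congr 1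
        push_cast
        ring
      simp_rw [h2]
      rw [← Finset.prod_univ_sum (t := fun _ : A => range L)
        (f := fun i x => ee (-((θ j i - θ j' i) * N)) * (ee (x * (θ j i - θ j' i)) *
            ee (y i * (-(θ j i - θ j' i)))))]
      refine Finset.prod_congr rfl fun i _ => ?_
      rw [← Finset.mul_sum, ← Finset.sum_mul]
      rfl
    simp_rw [h1]
    rw [Finset.sum_comm]
    refine Finset.sum_congr rfl fun j _ => ?_
    rw [Finset.sum_comm]
    refine Finset.sum_congr rfl fun j' _ => ?_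
    rw [← Finset.mul_sum]
    congr 1
    rw [← Finset.prod_univ_sum (t := fun _ : A => range K)
        (f := fun i y => ee (-((θ j i - θ j' i) * N)) * (geo L (θ j i - θ j' i) *
            ee (y * (-(θ j i - θ j' i)))))]
    refine Finset.prod_congr rfl fun i _ => ?_
    rw [← Finset.mul_sum, ← Finset.mul_sum]
    rfl
  have hre : ∑ y ∈ Fintype.piFinset (fun _ : A => range K),
      ∑ x ∈ Fintype.piFinset (fun _ : A => range L),
      ‖S J θ a (fun i => (x i : ℤ) - y i - N)‖ ^ 2 ≤
      ‖∑ j ∈ J, ∑ j' ∈ J, a j * (starRingEnd ℂ) (a j') *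
        ∏ i, (ee (-((θ j i - θ j' i) * N)) *
          (geo L (θ j i - θ j' i) * geo K (-(θ j i - θ j' i))))‖ := by
    rw [← hexp, Complex.norm_real]
    exact le_abs_self _
  refine hre.trans ((norm_sum_le _ _).trans (Finset.sum_le_sum fun j _ =>
    (norm_sum_le _ _).trans (Finset.sum_le_sum fun j' _ => ?_)))
  rw [norm_mul, norm_mul, RCLike.norm_conj, norm_prod]
  refine le_of_eq ?_
  congr 1
  refine Finset.prod_congr rfl fun i _ => ?_
  rw [norm_mul, norm_mul, norm_ee, one_mul, geo_neg]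

/-- **The large sieve inequality** for frequencies that are separated in the sup norm. -/
theorem large_sieve (K N : ℕ) {δ : ℝ} (hδ : 0 < δ) (hK : 1 / δ = K) (J : Finset ι)
    (θ : ι → A → ℝ)
    (hsep : ∀ j ∈ J, ∀ j' ∈ J, j ≠ j' → ∃ i, ∀ z : ℤ, δ ≤ |θ j i - θ j' i - z|) (a : ι → ℂ) :
    ∑ c ∈ Fintype.piFinset (fun _ : A => Icc (-(N : ℤ)) N), ‖S J θ a c‖ ^ 2 ≤
      (4 * N + 3 * K) ^ Fintype.card A * ∑ j ∈ J, ‖a j‖ ^ 2 := by
  classical
  have hK0 : (0 : ℝ) < K := by
    rw [← hK]
    positivity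
  set L := 2 * N + K with hL
  set D := ∑ y ∈ Fintype.piFinset (fun _ : A => range K),
    ∑ x ∈ Fintype.piFinset (fun _ : A => range L),
      ‖S J θ a (fun i => (x i : ℤ) - y i - N)‖ ^ 2 with hD
  -- comparison
  have h1 : (K : ℝ) ^ Fintype.card A *
      ∑ c ∈ Fintype.piFinset (fun _ : A => Icc (-(N : ℤ)) N), ‖S J θ a c‖ ^ 2 ≤ D := by
    have hcard : (Fintype.piFinset (fun _ : A => range K)).card = K ^ Fintype.card A := by
      rw [Fintype.card_piFinset]
      simp
    have h2 : (K : ℝ) ^ Fintype.card A *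
        ∑ c ∈ Fintype.piFinset (fun _ : A => Icc (-(N : ℤ)) N), ‖S J θ a c‖ ^ 2 =
        ∑ _y ∈ Fintype.piFinset (fun _ : A => range K),
          ∑ c ∈ Fintype.piFinset (fun _ : A => Icc (-(N : ℤ)) N), ‖S J θ a c‖ ^ 2 := by
      rw [Finset.sum_const, hcard, nsmul_eq_mul]
      push_cast
      rfl
    rw [h2, hD]
    refine Finset.sum_le_sum fun y hy => ?_
    rw [Fintype.mem_piFinset] at hy
    let g : (A → ℤ) → (A → ℕ) := fun c i => (c i + N + y i).toNat
    have hg : ∀ c ∈ Fintype.piFinset (fun _ : A => Icc (-(N : ℤ)) N), ∀ i,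
        ((g c i : ℕ) : ℤ) = c i + N + y i := by
      intro c hc i
      rw [Fintype.mem_piFinset] at hc
      have := Finset.mem_Icc.1 (hc i)
      simp only [g]
      rw [Int.toNat_of_nonneg (by omega)]
    have hinj : Set.InjOn g (Fintype.piFinset (fun _ : A => Icc (-(N : ℤ)) N)) := by
      intro c hc c' hc' h
      funext i
      have e1 := hg c hc i
      have e2 := hg c' hc' i
      rw [h] at e1
      omega
    calc ∑ c ∈ Fintype.piFinset (fun _ : A => Icc (-(N : ℤ)) N), ‖S J θ a c‖ ^ 2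
        = ∑ c ∈ Fintype.piFinset (fun _ : A => Icc (-(N : ℤ)) N),
          ‖S J θ a (fun i => ((g c i : ℕ) : ℤ) - y i - N)‖ ^ 2 := by
          refine Finset.sum_congr rfl fun c hc => ?_
          have : (fun i => ((g c i : ℕ) : ℤ) - y i - N) = c := by
            funext i
            rw [hg c hc i]
            ring
          rw [this]
      _ = ∑ x ∈ (Fintype.piFinset (fun _ : A => Icc (-(N : ℤ)) N)).image g,
          ‖S J θ a (fun i => (x i : ℤ) - y i - N)‖ ^ 2 := by
          rw [Finset.sum_image hinj]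
      _ ≤ _ := by
          refine Finset.sum_le_sum_of_subset_of_nonneg ?_ (fun _ _ _ => by positivity)
          intro x hx
          rw [Finset.mem_image] at hx
          obtain ⟨c, hc, rfl⟩ := hx
          rw [Fintype.mem_piFinset]
          intro i
          have e1 := hg c hc i
          rw [Fintype.mem_piFinset] at hc
          have e2 := Finset.mem_Icc.1 (hc i)
          have e3 := Finset.mem_range.1 (hy i)
          rw [Finset.mem_range]
          omega
  -- Schur's test
  have h3 : D ≤ (2 * (L * K) + 1 / δ ^ 2) ^ Fintype.card A * ∑ j ∈ J, ‖a j‖ ^ 2 := by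
    refine (double_sum L K N J θ a).trans ?_
    set k : ι → ι → ℝ := fun j j' =>
      ∏ i, (‖geo L (θ j i - θ j' i)‖ * ‖geo K (θ j i - θ j' i)‖) with hk
    have hk0 : ∀ j j', 0 ≤ k j j' := fun j j' => by
      simp only [hk]
      positivity
    have hsym : ∀ j j', k j j' = k j' j := by
      intro j j'
      simp only [hk]
      refine Finset.prod_congr rfl fun i _ => ?_
      rw [show θ j i - θ j' i = -(θ j' i - θ j i) by ring, geo_neg, geo_neg]
    have hrow : ∀ j, ∑ j' ∈ J, k j j' ≤ (2 * (L * K) + 1 / δ ^ 2) ^ Fintype.card A :=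
      fun j => row_sum L K hδ J θ hsep j
    calc ∑ j ∈ J, ∑ j' ∈ J, ‖a j‖ * ‖a j'‖ * k j j'
        ≤ ∑ j ∈ J, ∑ j' ∈ J, (‖a j‖ ^ 2 * k j j' / 2 + ‖a j'‖ ^ 2 * k j' j / 2) := by
          refine Finset.sum_le_sum fun j _ => Finset.sum_le_sum fun j' _ => ?_
          rw [hsym j' j]
          have := hk0 j j'
          nlinarith [sq_nonneg (‖a j‖ - ‖a j'‖)]
      _ = ∑ j ∈ J, ‖a j‖ ^ 2 * ∑ j' ∈ J, k j j' := by
          simp_rw [Finset.sum_add_distrib]
          rw [Finset.sum_comm (f := fun j j' => ‖a j'‖ ^ 2 * k j' j / 2)]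
          rw [← Finset.sum_add_distrib]
          refine Finset.sum_congr rfl fun j _ => ?_
          rw [← Finset.sum_add_distrib, Finset.mul_sum]
          refine Finset.sum_congr rfl fun j' _ => ?_
          ring
      _ ≤ ∑ j ∈ J, ‖a j‖ ^ 2 * (2 * (L * K) + 1 / δ ^ 2) ^ Fintype.card A := by
          refine Finset.sum_le_sum fun j _ => ?_
          exact mul_le_mul_of_nonneg_left (hrow j) (by positivity)
      _ = _ := by
          rw [← Finset.sum_mul, mul_comm]
  have h4 : (2 * ((L : ℝ) * K) + 1 / δ ^ 2) = K * (4 * N + 3 * K) := by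
    have h5 : 1 / δ ^ 2 = (K : ℝ) ^ 2 := by
      rw [← hK]
      field_simp
    rw [h5, hL]
    push_cast
    ring
  rw [h4, mul_pow, mul_assoc] at h3
  exact le_of_mul_le_mul_left (h1.trans h3) (by positivity)

end

end Pool.Agent.Helper14.LS
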