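import Pool.Agent.Helper14.LS.Cheb
import Pool.Agent.WO94.Single

/-!
# The large sieve for Hasse-Witt matrices

The local input (helper94) is in `Pool.Agent.WO94`.
-/

set_option autoImplicit false

namespace Pool.Agent.Helper14.LS

open Finset MvPolynomial WO94

section

variable {ι : Type} [Fintype ι] [DecidableEq ι] {R : Type} [CommRing R] {r : ℕ}
  (ω : Module.Basis (Fin r) ℤ R)

open scoped Classical in
theorem main_U (s : ℕ) (hs : 1 ≤ s) (U : Finset (ι →₀ ℕ)) (g : MvPolynomial ι R)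
    (P : Finset ℕ) (Q : ℕ) (hQ : ∀ p ∈ P, p ≤ Q) (M : ℕ → Ideal R)
    (hP : ∀ p ∈ P, p.Prime ∧ s ∣ p - 1 ∧ (M p).IsMaximal ∧ (p : R) ∈ M p)
    (ε : ℝ) (hε : 0 ≤ ε) (N : ℕ) :
    ((((box (U × Fin r) N).filter fun c =>
        ((P.filter fun p => (frob U p ((p - 1) / s) (MvPolynomial.map (Ideal.Quotient.mk (M p))
            (addMon U s g (fun u => elt ω (fun j => c (u, j)))))).det ≠ 0).card : ℝ)
          ≤ (1 - ε) * ∑ p ∈ P, (1 - (((p - 1) / s : ℕ) : ℝ) / Nat.card (R ⧸ M p)) ^ U.card).card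
            : ℕ) : ℝ) * (ε * ∑ p ∈ P,
              (1 - (((p - 1) / s : ℕ) : ℝ) / Nat.card (R ⧸ M p)) ^ U.card) ^ 2
      ≤ (4 * N + 3 * (Q : ℝ) ^ 2) ^ (U.card * r) *
        ∑ p ∈ P, (1 - (1 - (((p - 1) / s : ℕ) : ℝ) / Nat.card (R ⧸ M p)) ^ U.card) := by
  have hpm : ∀ p ∈ P, p = s * ((p - 1) / s) + 1 := by
    intro p hp
    rw [Nat.mul_div_cancel' (hP p hp).2.1]
    have := (hP p hp).1.pos
    omega
  have h := cheb (A := U × Fin r) P (fun p hp => (hP p hp).1) Q hQ
    (fun p => {y : U × Fin r → ZMod p |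
          (frob U p ((p - 1) / s) (MvPolynomial.map (Ideal.Quotient.mk (M p))
            (addMon U s g (fun u => elt ω (fun j => ((y (u, j)).val : ℤ)))))).det ≠ 0})
    (fun p => (1 - (((p - 1) / s : ℕ) : ℝ) / Nat.card (R ⧸ M p)) ^ U.card) ?_ ?_ ε hε N
  · have hcard : Fintype.card (U × Fin r) = U.card * r := by simp
    rw [hcard] at h
    have heq : ∀ c : U × Fin r → ℤ, nGood P (fun p => {y : U × Fin r → ZMod p |
          (frob U p ((p - 1) / s) (MvPolynomial.map (Ideal.Quotient.mk (M p))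
            (addMon U s g (fun u => elt ω (fun j => ((y (u, j)).val : ℤ)))))).det ≠ 0}) c
        = (P.filter fun p => (frob U p ((p - 1) / s) (MvPolynomial.map (Ideal.Quotient.mk (M p))
            (addMon U s g (fun u => elt ω (fun j => c (u, j)))))).det ≠ 0).card := by
      intro c
      simp only [nGood]
      congr 1
      apply Finset.filter_congr
      intro p hp
      simp only [Set.mem_ofPred_eq]
      have : Fact p.Prime := ⟨(hP p hp).1⟩
      have h1 : ∀ u : U, Ideal.Quotient.mk (M p)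
          (elt ω (fun j => (((((c (u, j) : ℤ) : ZMod p)).val : ℕ) : ℤ)))
          = Ideal.Quotient.mk (M p) (elt ω (fun j => c (u, j))) := by
        intro u
        rw [Ideal.Quotient.eq]
        simp only [elt]
        rw [← Finset.sum_sub_distrib]
        apply Ideal.sum_mem
        intro j _
        rw [← sub_smul]
        have h2 : (p : ℤ) ∣ (((((c (u, j) : ℤ) : ZMod p)).val : ℕ) : ℤ) - c (u, j) := by
          rw [← ZMod.intCast_zmod_eq_zero_iff_dvd]
          push_cast
          rw [ZMod.natCast_zmod_val, sub_self]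
        obtain ⟨k, hk⟩ := h2
        rw [hk, zsmul_eq_mul]
        push_cast
        rw [mul_assoc]
        exact Ideal.mul_mem_right _ _ (hP p hp).2.2.2
      rw [addMon_map, addMon_map]
      simp only [h1]
    simp only [heq] at h
    exact h
  · intro p hp
    have h1 := (local_order (U := U) ω (hP p hp).1 hs (hpm p hp) (M p) (hP p hp).2.2.1
      (hP p hp).2.2.2 g).2
    apply pow_nonneg
    have h2 : (0 : ℝ) < Nat.card (R ⧸ M p) := by
      exact_mod_cast lt_of_le_of_lt (Nat.zero_le _) h1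
    rw [sub_nonneg, div_le_one h2]
    exact_mod_cast h1.le
  · intro p hp
    exact (local_order (U := U) ω (hP p hp).1 hs (hpm p hp) (M p) (hP p hp).2.2.1
      (hP p hp).2.2.2 g).1

open scoped Classical in
theorem main_B (s : ℕ) (u : ι →₀ ℕ) (B : Finset (ι →₀ ℕ)) (k : B → ℕ)
    (haff : ∀ z : B → ℤ, ∑ b, z b = 0 → (∀ i, ∑ b : B, z b * (b.1 i : ℤ) = 0) → z = 0)
    (hk : ∀ i, ∑ b : B, k b * b.1 i = s * (∑ b, k b) * u i)
    (g : MvPolynomial ι R) (P : Finset ℕ) (Q : ℕ) (hQ : ∀ p ∈ P, p ≤ Q) (M : ℕ → Ideal R)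
    (hP : ∀ p ∈ P, p.Prime ∧ s * (∑ b, k b) ∣ p - 1 ∧ (M p).IsMaximal ∧ (p : R) ∈ M p)
    (ε : ℝ) (hε : 0 ≤ ε) (N : ℕ) :
    ((((box (B × Fin r) N).filter fun c =>
        ((P.filter fun p => coeff ((p - 1) • u) (MvPolynomial.map (Ideal.Quotient.mk (M p))
            (addB B g (fun b => elt ω (fun j => c (b, j)))) ^ ((p - 1) / s)) ≠ 0).card : ℝ)
          ≤ (1 - ε) * ∑ p ∈ P, ∏ b : B,
            (1 - (((p - 1) / (s * ∑ b, k b) * k b : ℕ) : ℝ) / Nat.card (R ⧸ M p))).card : ℕ) : ℝ) *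
        (ε * ∑ p ∈ P, ∏ b : B,
            (1 - (((p - 1) / (s * ∑ b, k b) * k b : ℕ) : ℝ) / Nat.card (R ⧸ M p))) ^ 2
      ≤ (4 * N + 3 * (Q : ℝ) ^ 2) ^ (B.card * r) *
        ∑ p ∈ P, (1 - ∏ b : B,
            (1 - (((p - 1) / (s * ∑ b, k b) * k b : ℕ) : ℝ) / Nat.card (R ⧸ M p))) := by
  set q0 := ∑ b, k b with hq0
  -- local facts
  have hloc : ∀ p ∈ P, (∀ b : B, 0 ≤ 1 - (((p - 1) / (s * q0) * k b : ℕ) : ℝ)
        / Nat.card (R ⧸ M p)) ∧
      (∏ b : B, (1 - (((p - 1) / (s * q0) * k b : ℕ) : ℝ) / Nat.card (R ⧸ M p)))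
        * (p : ℝ) ^ Fintype.card (B × Fin r)
      ≤ (Nat.card {y : B × Fin r → ZMod p | coeff ((p - 1) • u)
          (MvPolynomial.map (Ideal.Quotient.mk (M p))
            (addB B g (fun b => elt ω (fun j => ((y (b, j)).val : ℤ)))) ^ ((p - 1) / s)) ≠ 0} : ℝ) := by
    intro p hp
    obtain ⟨hpp, hdvd, hM, hpM⟩ := hP p hp
    have hp1 := hpp.one_lt
    have hs0 : s ≠ 0 := by
      rintro rfl
      rw [zero_mul, zero_dvd_iff] at hdvd
      omega
    have hq00 : q0 ≠ 0 := by
      intro h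
      rw [h, mul_zero, zero_dvd_iff] at hdvd
      omega
    obtain ⟨n, hn⟩ := hdvd
    have hn1 : (p - 1) / (s * q0) = n := by
      rw [hn]
      exact Nat.mul_div_cancel_left n (Nat.mul_pos (Nat.pos_of_ne_zero hs0) (Nat.pos_of_ne_zero hq00))
    have hm1 : (p - 1) / s = q0 * n := by
      rw [hn, mul_assoc]
      exact Nat.mul_div_cancel_left _ (Nat.pos_of_ne_zero hs0)
    have hmp : q0 * n < p := by
      have h1 : q0 * n ≤ s * q0 * n := by
        rw [mul_assoc]
        exact Nat.le_mul_of_pos_left _ (Nat.pos_of_ne_zero hs0)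
      omega
    letI : Field (R ⧸ M p) := Ideal.Quotient.field (M p)
    have hp0 : ((p : ℕ) : R ⧸ M p) = 0 := by
      have := Ideal.Quotient.eq_zero_iff_mem.mpr hpM
      simpa using this
    have hchar : CharP (R ⧸ M p) p := (CharP.charP_iff_prime_eq_zero hpp).mpr hp0
    obtain ⟨hfin, hcount⟩ := order_count ω (I := B) hpp (M p) hM hpM
      {c : B → R ⧸ M p | coeff ((p - 1) • u)
        (addB B (MvPolynomial.map (Ideal.Quotient.mk (M p)) g) c ^ (q0 * n)) ≠ 0}
    letI : Fintype (R ⧸ M p) := Fintype.ofFinite _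
    have hqc : Nat.card (R ⧸ M p) = Fintype.card (R ⧸ M p) := Nat.card_eq_fintype_card
    have hq0r : (0 : ℝ) < Nat.card (R ⧸ M p) := by
      rw [hqc]
      exact_mod_cast Fintype.card_pos
    have hpq : p ≤ Nat.card (R ⧸ M p) := by
      rw [hqc]
      have h2 := (CharP.cast_eq_zero_iff (R ⧸ M p) p (Fintype.card (R ⧸ M p))).mp
        (FiniteField.cast_card_eq_zero (R ⧸ M p))
      exact Nat.le_of_dvd Fintype.card_pos h2
    have hl := localB_count (B := B) (n := n) hpp hchar hmp k haff ((p - 1) • u)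
      (by rw [← Finset.mul_sum, ← hq0, mul_comm])
      (by
        intro i
        have h1 : ∑ b : B, n * k b * b.1 i = n * ∑ b : B, k b * b.1 i := by
          rw [Finset.mul_sum]
          exact Finset.sum_congr rfl fun b _ => by ring
        rw [h1, hk i, Finsupp.smul_apply, smul_eq_mul, hn]
        ring)
      (MvPolynomial.map (Ideal.Quotient.mk (M p)) g)
    rw [← hqc] at hl
    rw [hn1, hm1]
    refine ⟨?_, ?_⟩
    · intro b
      rw [sub_nonneg, div_le_one hq0r]
      have h3 : n * k b ≤ q0 * n := by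
        have : k b ≤ q0 := Finset.single_le_sum (f := k) (fun _ _ => Nat.zero_le _)
          (Finset.mem_univ b)
        nlinarith
      exact_mod_cast (h3.trans hmp.le).trans hpq
    · have hset : {y : B × Fin r → ZMod p | coeff ((p - 1) • u)
          (MvPolynomial.map (Ideal.Quotient.mk (M p))
            (addB B g (fun b => elt ω (fun j => ((y (b, j)).val : ℤ)))) ^ (q0 * n)) ≠ 0}
          = {y : B × Fin r → ZMod p |
        (fun i => Ideal.Quotient.mk (M p) (elt ω (fun j => ((y (i, j)).val : ℤ)))) ∈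
          {c : B → R ⧸ M p | coeff ((p - 1) • u)
        (addB B (MvPolynomial.map (Ideal.Quotient.mk (M p)) g) c ^ (q0 * n)) ≠ 0}} := by
        ext y
        simp only [Set.mem_ofPred_eq, addB, map_add, map_sum, map_monomial]
      rw [hset]
      have hpow : (0 : ℝ) < (Nat.card (R ⧸ M p) : ℝ) ^ Fintype.card B := pow_pos hq0r _
      have hcount' : (Nat.card {y : B × Fin r → ZMod p |
        (fun i => Ideal.Quotient.mk (M p) (elt ω (fun j => ((y (i, j)).val : ℤ)))) ∈
          {c : B → R ⧸ M p | coeff ((p - 1) • u)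
        (addB B (MvPolynomial.map (Ideal.Quotient.mk (M p)) g) c ^ (q0 * n)) ≠ 0}} : ℝ)
          * (Nat.card (R ⧸ M p) : ℝ) ^ Fintype.card B
          = (Nat.card {c : B → R ⧸ M p | coeff ((p - 1) • u)
        (addB B (MvPolynomial.map (Ideal.Quotient.mk (M p)) g) c ^ (q0 * n)) ≠ 0} : ℝ)
          * (p : ℝ) ^ Fintype.card (B × Fin r) := by
        exact_mod_cast hcount
      refine le_of_mul_le_mul_right ?_ hpow
      rw [hcount']
      calc _ = ((∏ b : B, (1 - ((n * k b : ℕ) : ℝ) / Nat.card (R ⧸ M p)))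
            * (Nat.card (R ⧸ M p) : ℝ) ^ Fintype.card B) * (p : ℝ) ^ Fintype.card (B × Fin r) := by
            ring
        _ ≤ _ := mul_le_mul_of_nonneg_right hl (by positivity)
  have h := cheb (A := B × Fin r) P (fun p hp => (hP p hp).1) Q hQ
    (fun p => {y : B × Fin r → ZMod p | coeff ((p - 1) • u)
          (MvPolynomial.map (Ideal.Quotient.mk (M p))
            (addB B g (fun b => elt ω (fun j => ((y (b, j)).val : ℤ)))) ^ ((p - 1) / s)) ≠ 0})
    (fun p => ∏ b : B, (1 - (((p - 1) / (s * q0) * k b : ℕ) : ℝ) / Nat.card (R ⧸ M p)))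
    (fun p hp => Finset.prod_nonneg fun b _ => (hloc p hp).1 b)
    (fun p hp => (hloc p hp).2) ε hε N
  have hcard : Fintype.card (B × Fin r) = B.card * r := by simp
  rw [hcard] at h
  have heq : ∀ c : B × Fin r → ℤ, nGood P (fun p => {y : B × Fin r → ZMod p |
        coeff ((p - 1) • u) (MvPolynomial.map (Ideal.Quotient.mk (M p))
            (addB B g (fun b => elt ω (fun j => ((y (b, j)).val : ℤ)))) ^ ((p - 1) / s)) ≠ 0}) c
      = (P.filter fun p => coeff ((p - 1) • u) (MvPolynomial.map (Ideal.Quotient.mk (M p))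
            (addB B g (fun b => elt ω (fun j => c (b, j)))) ^ ((p - 1) / s)) ≠ 0).card := by
    intro c
    simp only [nGood]
    congr 1
    apply Finset.filter_congr
    intro p hp
    simp only [Set.mem_ofPred_eq]
    have : Fact p.Prime := ⟨(hP p hp).1⟩
    have h1 : ∀ b : B, Ideal.Quotient.mk (M p)
        (elt ω (fun j => (((((c (b, j) : ℤ) : ZMod p)).val : ℕ) : ℤ)))
        = Ideal.Quotient.mk (M p) (elt ω (fun j => c (b, j))) := by
      intro b
      rw [Ideal.Quotient.eq]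
      simp only [elt]
      rw [← Finset.sum_sub_distrib]
      apply Ideal.sum_mem
      intro j _
      rw [← sub_smul]
      have h2 : (p : ℤ) ∣ (((((c (b, j) : ℤ) : ZMod p)).val : ℕ) : ℤ) - c (b, j) := by
        rw [← ZMod.intCast_zmod_eq_zero_iff_dvd]
        push_cast
        rw [ZMod.natCast_zmod_val, sub_self]
      obtain ⟨w, hw⟩ := h2
      rw [hw, zsmul_eq_mul]
      push_cast
      rw [mul_assoc]
      exact Ideal.mul_mem_right _ _ (hP p hp).2.2.2
    simp only [addB, map_add, map_sum, map_monomial, h1]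
  simp only [heq] at h
  exact h

end

end Pool.Agent.Helper14.LS
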