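import Pool.Agent.Helper14.LS.Ineq

/-!
# The variance form of the large sieve for residue classes
-/

set_option autoImplicit false

namespace Pool.Agent.Helper14.LS

open Finset

section

variable {A : Type} [Fintype A] [DecidableEq A] {p : ℕ} [NeZero p]

/-- Characters of `(Z/p)^A`. -/
noncomputable def chi (a b : A → ZMod p) : ℂ := ∏ i, (ZMod.stdAddChar (N := p) (a i * b i) : ℂ)

omit [DecidableEq A] in
theorem chi_comm (a b : A → ZMod p) : chi a b = chi b a := by
  unfold chi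
  refine Finset.prod_congr rfl fun i _ => ?_
  rw [mul_comm]

theorem sum_chi (b : A → ZMod p) :
    ∑ a : A → ZMod p, chi a b = if b = 0 then (p : ℂ) ^ Fintype.card A else 0 := by
  have h1 : ∑ a : A → ZMod p, chi a b
      = ∏ i : A, ∑ x : ZMod p, (ZMod.stdAddChar (N := p) (x * b i) : ℂ) := by
    rw [Finset.prod_univ_sum]
    simp only [Fintype.piFinset_univ]
    rfl
  rw [h1]
  have h2 : ∀ i : A, ∑ x : ZMod p, (ZMod.stdAddChar (N := p) (x * b i) : ℂ)
      = if b i = 0 then (p : ℂ) else 0 := by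
    intro i
    have := AddChar.sum_mulShift (R := ZMod p) (R' := ℂ) (b i) (ZMod.isPrimitive_stdAddChar p)
    rw [this, ZMod.card]
    split_ifs <;> simp
  simp_rw [h2]
  split_ifs with hb
  · subst hb; simp
  · obtain ⟨i, hi⟩ : ∃ i, b i ≠ 0 := by
      by_contra h
      push Not at h
      exact hb (funext h)
    apply Finset.prod_eq_zero (mem_univ i)
    rw [if_neg hi]

omit [DecidableEq A] in
theorem chi_conj (a b b' : A → ZMod p) :
    chi a b * (starRingEnd ℂ) (chi a b') = chi a (b - b') := by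
  unfold chi
  rw [map_prod, ← Finset.prod_mul_distrib]
  apply Finset.prod_congr rfl
  intro i _
  rw [← AddChar.map_neg_eq_conj, ← AddChar.map_add_eq_mul, Pi.sub_apply]
  congr 1
  ring

/-- Fourier coefficients. -/
noncomputable def fc (Z : (A → ZMod p) → ℝ) (b : A → ZMod p) : ℂ :=
  ((p : ℂ) ^ Fintype.card A)⁻¹ * ∑ y, (Z y : ℂ) * (starRingEnd ℂ) (chi b y)

theorem fourier_inv (Z : (A → ZMod p) → ℝ) (x : A → ZMod p) :
    (Z x : ℂ) = ∑ b, fc Z b * chi b x := by
  have hp : ((p : ℂ) ^ Fintype.card A) ≠ 0 := pow_ne_zero _ (by exact_mod_cast NeZero.ne p)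
  unfold fc
  have h1 : ∀ b : A → ZMod p, ((p : ℂ) ^ Fintype.card A)⁻¹ *
      (∑ y, (Z y : ℂ) * (starRingEnd ℂ) (chi b y)) * chi b x =
      ((p : ℂ) ^ Fintype.card A)⁻¹ * ∑ y, (Z y : ℂ) * chi b (x - y) := by
    intro b
    rw [mul_assoc, Finset.sum_mul]
    congr 1
    refine Finset.sum_congr rfl fun y _ => ?_
    rw [← chi_conj]
    ring
  simp_rw [h1]
  rw [← Finset.mul_sum, Finset.sum_comm]
  simp_rw [← Finset.mul_sum, sum_chi, sub_eq_zero]
  rw [Finset.sum_eq_single x]
  · rw [if_pos rfl]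
    field_simp
  · intro y _ hy
    rw [if_neg (Ne.symm hy), mul_zero]
  · intro h
    exact absurd (Finset.mem_univ _) h

theorem parseval (Z : (A → ZMod p) → ℝ) :
    ∑ b, ‖fc Z b‖ ^ 2 = ((p : ℝ) ^ Fintype.card A)⁻¹ * ∑ x, (Z x) ^ 2 := by
  have hp : ((p : ℂ) ^ Fintype.card A) ≠ 0 := pow_ne_zero _ (by exact_mod_cast NeZero.ne p)
  have h : ((∑ b, ‖fc Z b‖ ^ 2 : ℝ) : ℂ) =
      ((((p : ℝ) ^ Fintype.card A)⁻¹ * ∑ x, (Z x) ^ 2 : ℝ) : ℂ) := by
    have h1 : ∀ b : A → ZMod p, ((‖fc Z b‖ ^ 2 : ℝ) : ℂ) =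
        (((p : ℂ) ^ Fintype.card A)⁻¹ * ∑ y, (Z y : ℂ) * (chi b y)) * fc Z b := by
      intro b
      rw [Complex.ofReal_pow, ← Complex.mul_conj', mul_comm]
      congr 1
      unfold fc
      rw [map_mul, map_inv₀, map_pow, map_natCast, map_sum]
      congr 1
      refine Finset.sum_congr rfl fun y _ => ?_
      rw [map_mul, Complex.conj_ofReal, Complex.conj_conj]
    rw [Complex.ofReal_sum]
    simp_rw [h1]
    have h2 : ∀ b : A → ZMod p, (((p : ℂ) ^ Fintype.card A)⁻¹ * ∑ y, (Z y : ℂ) * (chi b y)) *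
        fc Z b = ((p : ℂ) ^ Fintype.card A)⁻¹ * ∑ y, (Z y : ℂ) * (fc Z b * chi b y) := by
      intro b
      rw [mul_assoc, Finset.sum_mul]
      congr 1
      refine Finset.sum_congr rfl fun y _ => ?_
      ring
    simp_rw [h2]
    rw [← Finset.mul_sum, Finset.sum_comm]
    simp_rw [← Finset.mul_sum, ← fourier_inv]
    push_cast
    congr 1
    refine Finset.sum_congr rfl fun y _ => ?_
    ring
  exact_mod_cast h

theorem fc_zero (Z : (A → ZMod p) → ℝ) (h : ∑ x, Z x = 0) : fc Z 0 = 0 := by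
  unfold fc
  have h1 : ∀ y : A → ZMod p, chi (0 : A → ZMod p) y = 1 := by
    intro y
    unfold chi
    simp
  simp_rw [h1]
  rw [map_one]
  simp only [mul_one]
  rw [← Complex.ofReal_sum, h]
  simp

omit [DecidableEq A] in
theorem chi_ee (b : A → ZMod p) (c : A → ℤ) :
    chi b (fun i => ((c i : ℤ) : ZMod p)) = ee (∑ i, ((b i).val : ℝ) / p * c i) := by
  rw [ee_sum]
  unfold chi
  refine Finset.prod_congr rfl fun i _ => ?_
  have h1 : b i * ((c i : ℤ) : ZMod p) = ((((b i).val : ℤ) * c i : ℤ) : ZMod p) := by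
    push_cast
    rw [ZMod.natCast_zmod_val]
  rw [h1, ZMod.stdAddChar_coe]
  unfold ee
  congr 1
  push_cast
  ring

end

/-- **The large sieve for functions on residue classes.** -/
theorem variance {A : Type} [Fintype A] [DecidableEq A] (P : Finset ℕ) (hP : ∀ p ∈ P, p.Prime)
    (Q : ℕ) (hQ : ∀ p ∈ P, p ≤ Q) (hQ1 : 1 ≤ Q) (N : ℕ) [∀ p : P, NeZero p.1]
    (Z : (p : P) → (A → ZMod p.1) → ℝ) (hZ : ∀ p, ∑ x, Z p x = 0) :
    ∑ c ∈ Fintype.piFinset (fun _ : A => Icc (-(N : ℤ)) N),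
      (∑ p : P, Z p (fun i => ((c i : ℤ) : ZMod p.1))) ^ 2 ≤
      (4 * N + 3 * (Q : ℝ) ^ 2) ^ Fintype.card A *
        ∑ p : P, ((p.1 : ℝ) ^ Fintype.card A)⁻¹ * ∑ x, (Z p x) ^ 2 := by
  classical
  let ι := (p : P) × (A → ZMod p.1)
  let J : Finset ι := Finset.univ.filter (fun j => j.2 ≠ 0)
  let θ : ι → A → ℝ := fun j i => ((j.2 i).val : ℝ) / j.1.1
  let a : ι → ℂ := fun j => fc (Z j.1) j.2
  have hpos : ∀ p : P, (0 : ℝ) < p.1 := fun p => by exact_mod_cast (hP p.1 p.2).pos
  have hQ0 : (0 : ℝ) < Q := by exact_mod_cast hQ1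
  have hsep : ∀ j ∈ J, ∀ j' ∈ J, j ≠ j' → ∃ i, ∀ z : ℤ,
      1 / (Q : ℝ) ^ 2 ≤ |θ j i - θ j' i - z| := by
    rintro ⟨p, b⟩ hj ⟨p', b'⟩ hj' hne
    simp only [J, Finset.mem_filter, Finset.mem_univ, true_and] at hj hj'
    -- a coordinate where the numerator does not vanish
    have key : ∃ i, ∀ z : ℤ, ((b i).val : ℤ) * p'.1 - (b' i).val * p.1 - z * (p.1 * p'.1) ≠ 0 := by
      by_cases hpp : p = p'
      · subst hpp
        have hbb : b ≠ b' := by
          intro h
          exact hne (by rw [h])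
        obtain ⟨i, hi⟩ : ∃ i, b i ≠ b' i := by
          by_contra h
          push Not at h
          exact hbb (funext h)
        refine ⟨i, fun z hz => hi ?_⟩
        have h0 : ((p.1 : ℕ) : ℤ) ≠ 0 := by exact_mod_cast (hP p.1 p.2).ne_zero
        have h1 : ((b i).val : ℤ) - (b' i).val - z * p.1 = 0 := by
          have : ((p.1 : ℕ) : ℤ) * (((b i).val : ℤ) - (b' i).val - z * p.1) = 0 := by
            linear_combination hz
          rcases mul_eq_zero.1 this with h | h
          · exact absurd h h0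
          · exact h
        have h2 : (((b i).val : ℤ) : ZMod p.1) = (((b' i).val : ℤ) : ZMod p.1) := by
          have h3 : ((b i).val : ℤ) = (b' i).val + z * p.1 := by linarith
          rw [h3]
          push_cast
          rw [ZMod.natCast_self, mul_zero, add_zero]
        push_cast at h2
        rwa [ZMod.natCast_zmod_val, ZMod.natCast_zmod_val] at h2
      · obtain ⟨i, hi⟩ : ∃ i, b i ≠ 0 := by
          by_contra h
          push Not at h
          exact hj (funext h)
        refine ⟨i, fun z hz => hi ?_⟩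
        have hcop : Nat.Coprime p.1 p'.1 := by
          rw [Nat.coprime_primes (hP p.1 p.2) (hP p'.1 p'.2)]
          intro h
          exact hpp (Subtype.ext h)
        have h1 : (p.1 : ℤ) ∣ ((b i).val : ℤ) * p'.1 := by
          refine ⟨(b' i).val + z * p'.1, ?_⟩
          linear_combination hz
        have h2 : (p.1 : ℤ) ∣ ((b i).val : ℤ) :=
          (Int.isCoprime_iff_gcd_eq_one.2 (by exact_mod_cast hcop)).dvd_of_dvd_mul_right h1
        have h3 : p.1 ∣ (b i).val := by exact_mod_cast h2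
        have h4 := Nat.eq_zero_of_dvd_of_lt h3 (ZMod.val_lt (b i))
        exact (ZMod.val_eq_zero (b i)).1 h4
    obtain ⟨i, hi⟩ := key
    refine ⟨i, fun z => ?_⟩
    have h1 := hi z
    have hp := hpos p
    have hp' := hpos p'
    have h2 : θ ⟨p, b⟩ i - θ ⟨p', b'⟩ i - z =
        ((((b i).val : ℤ) * p'.1 - (b' i).val * p.1 - z * (p.1 * p'.1) : ℤ) : ℝ) /
          (p.1 * p'.1) := by
      simp only [θ]
      push_cast
      field_simp
    have h3 : (1 : ℝ) ≤ |((((b i).val : ℤ) * p'.1 - (b' i).val * p.1 - z * (p.1 * p'.1) : ℤ) :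
        ℝ)| := by
      rw [← Int.cast_abs]
      exact_mod_cast Int.one_le_abs h1
    rw [h2, abs_div, abs_of_pos (show (0 : ℝ) < (p.1 : ℝ) * p'.1 by positivity)]
    have h4 : (p.1 : ℝ) * p'.1 ≤ (Q : ℝ) ^ 2 := by
      rw [sq]
      exact mul_le_mul (by exact_mod_cast hQ p.1 p.2) (by exact_mod_cast hQ p'.1 p'.2) hp'.le
        hQ0.le
    exact div_le_div₀ (by positivity) h3 (by positivity) h4
  have hls := large_sieve (A := A) (Q ^ 2) N (δ := 1 / (Q : ℝ) ^ 2) (by positivity)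
    (by push_cast; field_simp) J θ hsep a
  have hS : ∀ c : A → ℤ, S J θ a c =
      ((∑ p : P, Z p (fun i => ((c i : ℤ) : ZMod p.1)) : ℝ) : ℂ) := by
    intro c
    have h1 : S J θ a c = ∑ j : ι, a j * ee (∑ i, θ j i * c i) := by
      unfold S
      rw [Finset.sum_filter]
      refine Finset.sum_congr rfl fun j _ => ?_
      by_cases h : j.2 = 0
      · rw [if_neg (by simpa using h)]
        have : a j = 0 := by
          simp only [a]
          rw [h]
          exact fc_zero _ (hZ j.1)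
        rw [this, zero_mul]
      · rw [if_pos h]
    rw [h1, Fintype.sum_sigma, Complex.ofReal_sum]
    refine Finset.sum_congr rfl fun p _ => ?_
    rw [fourier_inv]
    refine Finset.sum_congr rfl fun b _ => ?_
    rw [chi_ee]
  have hleft : ∑ c ∈ Fintype.piFinset (fun _ : A => Icc (-(N : ℤ)) N), ‖S J θ a c‖ ^ 2 =
      ∑ c ∈ Fintype.piFinset (fun _ : A => Icc (-(N : ℤ)) N),
      (∑ p : P, Z p (fun i => ((c i : ℤ) : ZMod p.1))) ^ 2 := by
    refine Finset.sum_congr rfl fun c _ => ?_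
    rw [hS, Complex.norm_real, Real.norm_eq_abs, sq_abs]
  have hright : ∑ j ∈ J, ‖a j‖ ^ 2 ≤
      ∑ p : P, ((p.1 : ℝ) ^ Fintype.card A)⁻¹ * ∑ x, (Z p x) ^ 2 := by
    refine (Finset.sum_le_sum_of_subset_of_nonneg (Finset.filter_subset _ _)
      (fun _ _ _ => by positivity)).trans (le_of_eq ?_)
    rw [Fintype.sum_sigma]
    refine Finset.sum_congr rfl fun p _ => ?_
    rw [← parseval]
  rw [hleft] at hls
  push_cast at hls
  refine hls.trans ?_
  exact mul_le_mul_of_nonneg_left hright (by positivity)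

end Pool.Agent.Helper14.LS
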